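import Pool.Agent.H30.VTC.Count

set_option autoImplicit false

/-!
# An uncountable model of `VTC⁰` that is not an exponential integer part

There is an uncountable model of `VTC⁰` whose ring of binary integers is not isomorphic to an
exponential integer part of any real-closed exponential field.

Idea: build a model with a countable number sort and an uncountable string sort. Every positive
binary integer lies between `2 ^ n` and `2 ^ (n + 1)` for some number `n`, so the ring has only
countably many elements up to a factor two. An exponential function of a field which has the ring as
an exponential integer part would send integers whose difference is more than `1` to integers which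
differ by more than a factor two, so the ring would be countable.
-/

universe u

namespace Pool.Agent.Results.MP_632592_lc.UncountableModel

open Pool.Agent.H30.VTC

/-- There is an uncountable model `M` of `VTC⁰` whose ring of binary integers is not isomorphic to
an exponential integer part of any real-closed exponential field. -/
theorem result : ∃ M : TS, IsVTC0 M ∧ Uncountable (M.Num ⊕ M.Str) ∧
    (∃ (R : Type) (_ : CommRing R) (_ : LinearOrder R) (_ : IsStrictOrderedRing R)
      (val : M.Str → R), BinRing M R val) ∧
    ∀ (R : Type) (_ : CommRing R) (_ : LinearOrder R) (_ : IsStrictOrderedRing R)
      (val : M.Str → R), BinRing M R val → ¬ IsExpIP.{u} R := by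
  obtain ⟨S, G, hS, hG, hnum, hstr⟩ := exists_model
  refine ⟨Mod hS hG, isVTC0 hS hG, ?_, ?_, ?_⟩
  · exact Function.Injective.uncountable
      (f := (Sum.inr : (Mod hS hG).Str → (Mod hS hG).Num ⊕ (Mod hS hG).Str)) Sum.inr_injective
  · exact ⟨RM hS hG, inferInstance, inferInstance, inferInstance, valM hS hG, binRing hS hG⟩
  · intro R _ _ _ val hR hexp
    obtain ⟨p, hp⟩ := exists_pow hS hG R val hR
    have h1 : Countable R := countable_of_isExpIP R p hp hexp
    have h2 : Countable (Mod hS hG).Str := hR.inj.countable
    exact (not_uncountable_iff.2 h2) hstr

end Pool.Agent.Results.MP_632592_lc.UncountableModel
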